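import Pool.Agent.H81.FX.Targets

/-!
# Leaves of a finite part of the tree (row LEAF of fcx_modules)
-/

set_option autoImplicit false

namespace Pool.Agent.H67.FCX

open Finset Pool.Agent.H81.FX

theorem pf_LEAF (hCNC : T_CNC) : T_LEAF := by
  classical
  intro ι _ S β hM τ hτ Q hQ
  obtain ⟨hβ0, -, hβ1⟩ := hM
  refine ⟨Q.filter (fun r => ∀ r' ∈ Q, r.toWord <+: r'.toWord → r' = r),
    Finset.filter_subset _ _, ?_, ?_⟩
  · set P := Q.filter (fun r => ∀ r' ∈ Q, r.toWord <+: r'.toWord → r' = r) with hP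
    have hmem : ∀ l, l ∈ P → l ∈ Q ∧ ∀ r' ∈ Q, l.toWord <+: r'.toWord → r' = l := by
      intro l hl
      exact Finset.mem_filter.1 hl
    have huniq : ∀ h : FreeGroup ι, ∀ l ∈ P, ∀ l' ∈ P, Canc h l → Canc h l' → l = l' := by
      intro h l hl l' hl' hc hc'
      rcases isEmpty_or_nonempty ι with hι | ⟨⟨i⟩⟩
      · exact Subsingleton.elim _ _
      rcases le_total l.norm l'.norm with hn | hn
      · have h1 := (hCNC ι h h l l' (i, true)).2.2.2 hc hc' hn
        exact ((hmem l hl).2 l' (hmem l' hl').1 h1).symm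
      · have h1 := (hCNC ι h h l' l (i, true)).2.2.2 hc' hc hn
        exact (hmem l' hl').2 l (hmem l hl).1 h1
    have h1 : ∀ h ∈ S, ∑ l ∈ P, (if Canc h l then β h else 0) ≤ β h := by
      intro h _
      rw [← Finset.sum_filter, Finset.sum_const, nsmul_eq_mul]
      have h2 : (P.filter (fun l => Canc h l)).card ≤ 1 := by
        rw [Finset.card_le_one]
        intro l hl l' hl'
        rw [Finset.mem_filter] at hl hl'
        exact huniq h l hl.1 l' hl'.1 hl.2 hl'.2
      have h3 : ((P.filter (fun l => Canc h l)).card : ℝ) ≤ 1 := by exact_mod_cast h2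
      nlinarith [hβ0 h]
    calc (P.card : ℝ) * τ = ∑ _l ∈ P, τ := by rw [Finset.sum_const, nsmul_eq_mul]
      _ ≤ ∑ l ∈ P, ∑ h ∈ S, (if Canc h l then β h else 0) := by
          refine Finset.sum_le_sum fun l hl => ?_
          have h4 : τ < ∑ h ∈ S, if Canc h l then β h else 0 := hQ l (hmem l hl).1
          exact h4.le
      _ = ∑ h ∈ S, ∑ l ∈ P, (if Canc h l then β h else 0) := Finset.sum_comm
      _ ≤ ∑ h ∈ S, β h := Finset.sum_le_sum h1
      _ ≤ 1 := hβ1
  · intro r hr
    set Qr := Q.filter (fun r' => r.toWord <+: r'.toWord) with hQr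
    have hne : Qr.Nonempty := ⟨r, Finset.mem_filter.2 ⟨hr, List.prefix_refl _⟩⟩
    obtain ⟨l, hl, hmax⟩ := Finset.exists_max_image Qr FreeGroup.norm hne
    have hl' := Finset.mem_filter.1 hl
    refine ⟨l, Finset.mem_filter.2 ⟨hl'.1, ?_⟩, hl'.2⟩
    intro r' hr' hpre
    have h1 : r' ∈ Qr := Finset.mem_filter.2 ⟨hr', hl'.2.trans hpre⟩
    have h2 := hmax r' h1
    have h3 : l.toWord = r'.toWord := hpre.eq_of_length_le h2
    exact (FreeGroup.toWord_injective h3).symm

end Pool.Agent.H67.FCX
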